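import Pool.Agent.H88.CM.AREG

/-!
# Closing lemma on compact manifolds: row FSTM (the fast regime)
-/

set_option autoImplicit false

open Set Function Topology Metric Filter
open scoped Manifold
open Pool.Agent.H88.CL Pool.Agent.H88.CM

namespace Pool.Agent.H69.CM

theorem pf_FSTM (h : T_HLVM) : T_FSTM := by
  intro d ε ρ0 hε hρ0 hρ1
  obtain ⟨C, hC1, hC⟩ := h d
  obtain ⟨e, he⟩ : ∃ e : ℝ, e = min ε 1 := ⟨_, rfl⟩
  have he0 : 0 < e := by rw [he]; exact lt_min hε one_pos
  have he1 : e ≤ 1 := by rw [he]; exact min_le_right _ _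
  have heε : e ≤ ε := by rw [he]; exact min_le_left _ _
  have hC0 : 0 < C := by linarith
  obtain ⟨a, ha⟩ : ∃ a : ℝ, a = C / e := ⟨_, rfl⟩
  have ha0 : 0 < a := by rw [ha]; positivity
  have hae : a * e = C := by rw [ha]; field_simp
  have ha1 : 1 ≤ a := by
    rw [ha, le_div_iff₀ he0]
    linarith
  obtain ⟨t, ht⟩ : ∃ t : ℝ, t = ρ0 ^ 2 / (256 * a ^ 2) := ⟨_, rfl⟩
  have ht0 : 0 < t := by rw [ht]; positivity
  have hta : a ^ 2 * t = ρ0 ^ 2 / 256 := by
    rw [ht]
    field_simp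
  have hρ2 : ρ0 ^ 2 ≤ ρ0 := by nlinarith
  have ht1 : t ≤ 1 / 64 := by
    have h2 : 1 ≤ a ^ 2 := one_le_pow₀ ha1
    have h3 : t ≤ a ^ 2 * t := le_mul_of_one_le_left ht0.le h2
    rw [hta] at h3
    linarith
  have key : ∀ (M : Type) [TopologicalSpace M] (f : M → M) (κ : Ch d M) (x : E d),
      closedBall x ρ0 ⊆ κ.target → ∀ m : ℕ, 1 ≤ m → ∀ y : M, y ∈ κ.source →
      ‖κ y - x‖ + 4 * a * (3 * t - 2 * t ^ m) ≤ ρ0 / 4 → f^[m] y ∈ κ.source →
      ‖κ (f^[m] y) - κ y‖ ≤ 4 * a * t ^ m →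
      ∃ (u : E d → E d) (q : M) (m' : ℕ), Bp d (closedBall x ρ0) e e e u ∧ 1 ≤ m' ∧
        q ∈ κ.source ∧ ‖κ q - κ y‖ ≤ 4 * a * (3 * t - 2 * t ^ m) ∧
        (f ∘ bmp κ u)^[m'] q = q := by
    intro M _ f κ x hball m
    induction m using Nat.strong_induction_on with
    | _ m ih =>
      intro hm y hy hyx hfy hD
      have htm : t ^ m ≤ t := by
        calc t ^ m ≤ t ^ 1 := pow_le_pow_of_le_one ht0.le (by linarith) hm
          _ = t := pow_one t
      have htm0 : 0 < t ^ m := pow_pos ht0 m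
      have hX : C / e * ‖κ (f^[m] y) - κ y‖ ≤ 4 * a ^ 2 * t ^ m := by
        rw [← ha]
        calc a * ‖κ (f^[m] y) - κ y‖ ≤ a * (4 * a * t ^ m) :=
              mul_le_mul_of_nonneg_left hD ha0.le
          _ = 4 * a ^ 2 * t ^ m := by ring
      have hX16 : C / e * ‖κ (f^[m] y) - κ y‖ ≤ (ρ0 / 8) ^ 2 := by
        refine hX.trans ?_
        calc 4 * a ^ 2 * t ^ m ≤ 4 * a ^ 2 * t :=
              mul_le_mul_of_nonneg_left htm (by positivity)
          _ = 4 * (a ^ 2 * t) := by ring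
          _ = (ρ0 / 8) ^ 2 := by rw [hta]; ring
      have hyx' : ‖κ y - x‖ ≤ ρ0 / 4 := by
        have h1 : 0 ≤ 4 * a * (3 * t - 2 * t ^ m) :=
          mul_nonneg (by positivity) (by linarith)
        linarith
      rcases hC M f κ x ρ0 e y m hball hρ0 hρ1 he0 he1 hy hyx' hm hfy hX16 with
        ⟨u, hu, hper⟩ | ⟨y', m', hm', h2m, hy', hyy, hfy', hnear⟩
      · refine ⟨u, f^[m] y, m, hu, hm, hfy, hD.trans ?_, hper⟩
        exact mul_le_mul_of_nonneg_left (by linarith) (by positivity)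
      · have hs : 2 * Real.sqrt (C / e * ‖κ (f^[m] y) - κ y‖) ≤ 4 * a * t ^ m' := by
          have h1 : Real.sqrt (C / e * ‖κ (f^[m] y) - κ y‖) ≤ 2 * a * t ^ m' := by
            rw [Real.sqrt_le_iff]
            refine ⟨by positivity, hX.trans ?_⟩
            have h2 : t ^ m ≤ t ^ (2 * m') := pow_le_pow_of_le_one ht0.le (by linarith) h2m
            calc 4 * a ^ 2 * t ^ m ≤ 4 * a ^ 2 * t ^ (2 * m') :=
                  mul_le_mul_of_nonneg_left h2 (by positivity)
              _ = (2 * a * t ^ m') ^ 2 := by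
                  rw [mul_comm 2 m', pow_mul]
                  ring
          linarith
        have h4 : 2 * t ^ m ≤ t ^ m' := by
          have h5 : t ^ m ≤ t ^ (2 * m') := pow_le_pow_of_le_one ht0.le (by linarith) h2m
          have h6 : t ^ (2 * m') = t ^ m' * t ^ m' := by
            rw [two_mul, pow_add]
          have h7 : t ^ m' ≤ t := by
            calc t ^ m' ≤ t ^ 1 := pow_le_pow_of_le_one ht0.le (by linarith) hm'
              _ = t := pow_one t
          have h8 : 0 < t ^ m' := pow_pos ht0 m'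
          have h9 : t ^ m' * t ^ m' ≤ t ^ m' * (1 / 64) :=
            mul_le_mul_of_nonneg_left (h7.trans ht1) h8.le
          linarith
        have h10 : 4 * a * (3 * t - 2 * t ^ m') + 4 * a * t ^ m' = 4 * a * (3 * t - t ^ m') := by
          ring
        have h11 : 4 * a * (3 * t - t ^ m') ≤ 4 * a * (3 * t - 2 * t ^ m) :=
          mul_le_mul_of_nonneg_left (by linarith) (by positivity)
        have h12 : ‖κ y' - x‖ ≤ ‖κ y' - κ y‖ + ‖κ y - x‖ := by
          have : κ y' - x = (κ y' - κ y) + (κ y - x) := by abel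
          rw [this]
          exact norm_add_le _ _
        obtain ⟨u, q, m'', hu, hm'', hqs, hq', hper⟩ := ih m' (by omega) hm' y' hy'
          (by linarith) hfy' (hnear.trans hs)
        refine ⟨u, q, m'', hu, hm'', hqs, ?_, hper⟩
        have h3 : κ q - κ y = (κ q - κ y') + (κ y' - κ y) := by abel
        rw [h3]
        refine (norm_add_le _ _).trans ((add_le_add hq' (hyy.trans hs)).trans ?_)
        rw [h10]
        exact h11
  have h2 : 4 * a * (3 * t) * a = 3 * ρ0 ^ 2 / 64 := by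
    calc 4 * a * (3 * t) * a = 12 * (a ^ 2 * t) := by ring
      _ = 3 * ρ0 ^ 2 / 64 := by rw [hta]; ring
  refine ⟨t, 4 * a, ht0, by linarith, by positivity, ?_⟩
  intro M _ f κ x hball y m hm hy hyx hfy hD
  have htm0 : 0 < t ^ m := pow_pos ht0 m
  have h1 : 4 * a * (3 * t - 2 * t ^ m) ≤ 4 * a * (3 * t) :=
    mul_le_mul_of_nonneg_left (by linarith) (by positivity)
  have h0 : 0 ≤ 4 * a * (3 * t) := by positivity
  have h5 : 4 * a * (3 * t) ≤ 3 * ρ0 ^ 2 / 64 := by
    rw [← h2]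
    exact le_mul_of_one_le_right h0 ha1
  have h3 : 4 * a * (3 * t) ≤ e := by
    have h4 : 4 * a * (3 * t) * a ≤ e * a := by
      rw [h2, mul_comm e a, hae]
      linarith
    exact le_of_mul_le_mul_right h4 ha0
  obtain ⟨u, q, m', hu, hm', hqs, hq, hper⟩ := key M f κ x hball m hm y hy (by linarith) hfy hD
  exact ⟨u, q, m', hu.mono Subset.rfl heε heε heε, hm', hqs, by linarith, hper⟩

end Pool.Agent.H69.CM
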